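import Pool.Agent.U365.POW.E
import Pool.Agent.Results.MP_cda23d_nt.InvariantWindows

/-!
# Galois images of order divisible by `p` for all elliptic curves with invariant of height near `s(m)`, `m - φ(m)` or `α m + β f(m)`

For every `ε > 0` there are `P` and `c₀ > 0` with the following property. Let `s(m)` be the sum of the proper divisors
of `m`. Let `G` have steps bounded below by a positive constant and growth at most `v ^ d`, for example `G v = v`, `ε
> 0`, `θ ≥ 0` and `e = d ε + θ < 1`. For a set of `m` of lower density at least `1 - e`: for ALL elliptic curves over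
`ℚ` whose invariant has a height `H` which differs from `G (s(m))` by at most `s(m) ^ θ`, and ALL primes `p` with `P ≤
p ≤ exp (c₀ √(log H))`, the order of the image of the Galois group in `Aut(E[p])` is divisible by `p`; and the same
holds for `m - φ(m)` in place of `s(m)`. More precisely this holds for almost all `m` with a divisor `≥ m ^ (e + ρ)`
which is a prime or the product of two different primes, and for the values `g = α m + β f(m)` of multiplicative
functions with `f p = p + c` at the primes, uniformly in `|α|, |β| ≤ N ^ δ` and with a power saving in the number of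
the exceptional `m`.

As `ε` may be small, `e` may be as close to `θ` as we like. Proof. The starting theorem used in `InvariantWindows`
bounds the number of the exceptional invariants of height `≤ X` by `X ^ ε`. Let `m = k v p` with large primes `p ≠ v`.
Then `g = A v p + B (v + p) + B c`, `A = α k + β f(k)`, `B = β c f(k)`, and so `(A v + B) (A p + B) = A g + B² - A B
c`: for given `g`, `k`, `α`, `β` there are only `N^o(1)` possibilities for `p` and `v` (tool `Pool.Agent.U365.POW`).
-/

set_option autoImplicit false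

namespace Pool.Agent.Results.MP_cda23d_nt.AliquotValues

open InvariantWindows (invariant OrderDivisible ht Exc count)
open Pool.Agent.U365.POW (Values Dens values_set values_mono dens_mono)
open Pool.Agent.N733.TG (Expanding)

/-- for all elliptic curves `y² = x³ + Ax + B` over `ℚ` whose invariant has height `H` with `|H - G v| ≤ v ^ θ` and all primes
`p` with `P ≤ p ≤ exp (c₀ √(log H))` the order of the image of the Galois group is divisible by `p` -/
def Near (P : ℕ) (c₀ : ℝ) (G : ℕ → ℝ) (θ : ℝ) (v : ℕ) : Prop :=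
  ∀ A B : ℚ, 4 * A ^ 3 + 27 * B ^ 2 ≠ 0 → |(ht (invariant A B) : ℝ) - G v| ≤ (v : ℝ) ^ θ →
    ∀ p : ℕ, p.Prime → P ≤ p → (p : ℝ) ≤ Real.exp (c₀ * Real.sqrt (Real.log (ht (invariant A B) : ℝ))) → OrderDivisible A B p

lemma near_of {P : ℕ} {c₀ θ : ℝ} {G : ℕ → ℝ} {v : ℕ}
    (h : ∀ t ∈ Exc P c₀, ¬ |(ht t : ℝ) - G v| ≤ (v : ℝ) ^ θ) : Near P c₀ G θ v := by
  intro A B hAB hw p hp hPp hpc
  by_contra hcon
  exact h (invariant A B) ⟨A, B, hAB, rfl, p, hp, hPp, hpc, hcon⟩ hw

/-- **Theorem.** Let `G` have steps `≥ a > 0` and growth at most `v ^ d`, `ε > 0`, `θ ≥ 0` and `e = d ε + θ < 1`. For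
every `ρ > 0` the property `Near` holds for the values of similar functions as the aliquot sum (`Values`: for `s(m)`,
for `m - φ(m)` and for all `α m + β f(m)`, for almost all the `m` with a divisor `≥ m ^ (e + ρ)` which is a prime or
the product of two different primes), and it holds for `s(m)` and `m - φ(m)` for a set of `m` of lower density at
least `1 - e`. -/
theorem result : ∀ ε : ℝ, 0 < ε → ∃ (P : ℕ) (c₀ : ℝ), 0 < c₀ ∧ ∀ (G : ℕ → ℝ) (d : ℝ), Expanding G d → ∀  (θ : ℝ),
    0 ≤ θ → d * ε + θ < 1 →
    (∀ ρ : ℝ, 0 < ρ → Values (d * ε + θ + ρ) (Near P c₀ G θ)) ∧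
      Dens (1 - (d * ε + θ)) (Near P c₀ G θ) := by
  intro ε hε
  obtain ⟨P, c₀, hc₀, hcount⟩ := count ε hε
  refine ⟨P, c₀, hc₀, ?_⟩
  intro G d hG  θ  hθ h1
  obtain ⟨h2, h3⟩ := values_set (Exc P c₀) (fun j => (ht j : ℝ)) hG (s := ε) hε.le hθ h1
    hcount
  have hm : ∀ g : ℕ, (∀ t, |(ht t : ℝ) - G g| ≤ (g : ℝ) ^ θ → t ∉ (Exc P c₀)) → Near P c₀ G θ g :=
    fun g hg => near_of (fun t ht hw => hg t hw ht)
  exact ⟨fun ρ hρ => values_mono (h2 ρ hρ) hm, dens_mono h3 le_rfl hm⟩

end Pool.Agent.Results.MP_cda23d_nt.AliquotValues
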