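import Pool.Agent.U536.CF.F
import Pool.Agent.Results.MP_cda23d_nt.InvariantWindows

/-!
# Galois images of order divisible by `p` for all elliptic curves with invariant of height near an integer with a large common factor with a value of `f`

For every `ε > 0` there are `P` and `c₀ > 0` with the following property. Let `f` be a positive multiplicative
function of at most polynomial growth such that `f p ≤ M p` for the large primes `p`, with different values at
different large primes; for example Euler's function or the sum of the divisors. Let `G` have steps bounded below by a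
positive constant and growth at most `v^d`, for example `α v^d`. Let `b < 1` and `0 ≤ c < 2 b - 1`. For all `m ≤ N`
but `N exp (-(log N)^c)`, for EVERY integer `w ≥ exp ((log N)^b)` with `gcd(w, f(m)) ≥ w^ρ`: for ALL elliptic curves
over `ℚ` whose invariant has a height `H` which differs from `G w` by at most `w ^ θ`, and ALL primes `p` with `P ≤ p
≤ exp (c₀ √(log H))`, the order of the image of the Galois group in `Aut(E[p])` is divisible by `p`, if `ε > 0`, `θ ≥
0` and `d ε + θ < ρ ≤ 1`. The integers `w` include all large divisors of `f(m)` and their multiples by small integers;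
for Euler's function, the orders of the elements of the group of units modulo `m`.

As `ε` may be small, every `ρ > θ` is possible. Proof. The tool `Pool.Agent.U536.CF` bounds the number of the `m ≤ N`
for which such a `w` lies in a given set with a power saving, by Hölder's inequality for the number of the ordered
factorizations. The starting theorem used in `InvariantWindows` bounds the number of the exceptional invariants of
height `≤ X` by `X ^ ε`.
-/

set_option autoImplicit false

namespace Pool.Agent.Results.MP_cda23d_nt.CommonFactors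

open InvariantWindows (invariant OrderDivisible ht Exc count)
open Pool.Agent.N733.TG (LM Expanding lm_totient lm_sigma expanding_pow)
open Pool.Agent.U536.CF (Common common_windows common_of_dvd common_order)

/-- for all elliptic curves `y² = x³ + Ax + B` over `ℚ` whose invariant has height `H` with `|H - G v| ≤ v ^ θ` and all primes
`p` with `P ≤ p ≤ exp (c₀ √(log H))` the order of the image of the Galois group is divisible by `p` -/
def Near (P : ℕ) (c₀ : ℝ) (G : ℕ → ℝ) (θ : ℝ) (v : ℕ) : Prop :=
  ∀ A B : ℚ, 4 * A ^ 3 + 27 * B ^ 2 ≠ 0 → |(ht (invariant A B) : ℝ) - G v| ≤ (v : ℝ) ^ θ →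
    ∀ p : ℕ, p.Prime → P ≤ p → (p : ℝ) ≤ Real.exp (c₀ * Real.sqrt (Real.log (ht (invariant A B) : ℝ))) → OrderDivisible A B p

lemma near_of {P : ℕ} {c₀ θ : ℝ} {G : ℕ → ℝ} {v : ℕ}
    (h : ∀ t ∈ Exc P c₀, ¬ |(ht t : ℝ) - G v| ≤ (v : ℝ) ^ θ) : Near P c₀ G θ v := by
  intro A B hAB hw p hp hPp hpc
  by_contra hcon
  exact h (invariant A B) ⟨A, B, hAB, rfl, p, hp, hPp, hpc, hcon⟩ hw

/-- **Galois images of order divisible by `p` for all elliptic curves with invariant of height near all integers with a
large common factor with a value of a multiplicative function.** Let `f` be multiplicative and positive, of at most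
polynomial growth, with `f p ≤ M p` at the large primes, and injective there. Let `G` have steps `≥ a > 0` and growth
at most `v^d`. Let `b < 1` and `0 ≤ c < 2 b - 1`, `ε > 0`, `θ ≥ 0` and `d ε + θ < ρ ≤ 1`. For all large `N`, for all
`m ≤ N` but `N exp (-(log N)^c)`, the property `Near` holds at EVERY integer `w ≥ exp ((log N)^b)` with `gcd(w, f(m))
≥ w^ρ`. All divisors `w ≥ exp ((log N)^b)` of `f(m)` are such integers `w`, and for Euler's function the orders `≥ exp
((log N)^b)` of the units modulo `m`. Euler's function and the sum of the divisors are examples of `f`, and `α v^d`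
with `α > 0`, `d ≥ 1` is an example of `G`. -/
theorem result :
    (∀ ε : ℝ, 0 < ε → ∃ (P : ℕ) (c₀ : ℝ), 0 < c₀ ∧ ∀ f : ℕ → ℕ, LM f → ∀ (G : ℕ → ℝ) (d : ℝ), Expanding G d → ∀ 
      (θ ρ b c : ℝ), 0 ≤ θ → d * ε + θ < ρ → ρ ≤ 1 → b < 1 → 0 ≤ c → c < 2 * b - 1 →
      ∃ N₀ : ℕ, ∀ N : ℕ, N₀ ≤ N →
        ({m : ℕ | 1 ≤ m ∧ m ≤ N ∧ ¬ ∀ w : ℕ, Common f b ρ N m w → Near P c₀ G θ w}.ncard : ℝ) ≤
          N * Real.exp (-(Real.log N ^ c))) ∧
    (LM Nat.totient ∧ LM (fun m => ∑ d ∈ m.divisors, d)) ∧
    (∀ α d : ℝ, 0 < α → 1 ≤ d → Expanding (fun v => α * (v : ℝ) ^ d) d) ∧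
    (∀ (f : ℕ → ℕ) (b ρ : ℝ) (N m w : ℕ), ρ ≤ 1 → Real.exp (Real.log N ^ b) ≤ (w : ℝ) → w ∣ f m → Common f b ρ N m w) ∧
    ∀ (b ρ : ℝ) (N m : ℕ), ρ ≤ 1 → ∀ x : (ZMod m)ˣ, Real.exp (Real.log N ^ b) ≤ (orderOf x : ℝ) →
      Common Nat.totient b ρ N m (orderOf x) := by
  refine ⟨?_, ⟨lm_totient, lm_sigma⟩, fun α d hα hd => expanding_pow hα hd, fun f b ρ N m w hρ hw hd => common_of_dvd hρ hw hd,
    fun b ρ N m hρ x hx => common_order hρ x hx⟩
  intro ε hε
  obtain ⟨P, c₀, hc₀, hcount⟩ := count ε hε
  refine ⟨P, c₀, hc₀, ?_⟩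
  intro f hf G d hG  θ ρ b c  hθ h1 hρ hb hc hcb
  obtain ⟨N₀, hN₀⟩ := common_windows (Exc P c₀) (fun j => (ht j : ℝ)) hf hG (s := ε) hε.le hθ h1 hρ hb hc hcb
    hcount
  refine ⟨N₀, fun N hN => le_trans (Nat.cast_le.2 (Set.ncard_le_ncard ?_ ?_)) (hN₀ N hN)⟩
  · rintro m ⟨h2, h3, h4⟩
    push Not at h4
    obtain ⟨w, hw, h5⟩ := h4
    refine ⟨h2, h3, w, hw, ?_⟩
    by_contra hcon
    push Not at hcon
    exact h5 (near_of (fun t ht => not_le.2 (hcon t ht)))
  · exact (Set.finite_Icc 1 N).subset fun m hm => ⟨hm.1, hm.2.1⟩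

end Pool.Agent.Results.MP_cda23d_nt.CommonFactors
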