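import Pool.Agent.U449.BV.E
import Pool.Agent.Results.MP_cda23d_nt.InvariantWindows

/-!
# Galois images of order divisible by `p` for all elliptic curves with invariant of height near `f(a, b) + g(a) + h(b)`, `a`, `b` in arbitrary sets

For every `ε > 0` there are `P` and `c₀ > 0` with the following property. Let `f(x, y)` be an integer polynomial with
a monomial which contains both variables, `A`, `B` ARBITRARY finite sets of at least `X ^ δ` integers, and `g`, `h`
ARBITRARY real functions such that `F(a, b) = f(a, b) + g(a) + h(b)` has absolute value at most `X` on `A × B`. Let `θ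
≥ 0` and `ε + θ < δ`. For all the pairs `(a, b)`, apart from a proportion of at most `X ^ (-ρ)`: for ALL elliptic
curves over `ℚ` whose invariant has a height `H` which differs from `F(a, b)` by at most `X ^ θ`, and ALL primes `p`
with `P ≤ p ≤ exp (c₀ √(log H))`, the order of the image of the Galois group in `Aut(E[p])` is divisible by `p`. The
same holds for the values of all functions `F(a, b)` of two variables with few coincidences (`Rare`); `ρ > 0` depends
only on the exponents and the degree of `f`.

Since `A`, `B`, `g` and `h` are arbitrary, the values have no arithmetic structure, and a value can be taken by very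
many pairs. So the number of the exceptions does not give the result directly. Proof: the inequality of Cauchy and
Schwarz; for most pairs `a, a'` the difference `F(a, b) - F(a', b)` is small for few `b` (`Pool.Agent.U449.BV`). The
starting theorem used in `InvariantWindows` bounds the number of the exceptional invariants of height `≤ X` by `X ^
ε`.
-/

set_option autoImplicit false

namespace Pool.Agent.Results.MP_cda23d_nt.MixedPolynomials

open InvariantWindows (invariant OrderDivisible ht Exc count)
open Pool.Agent.U449.BV (Rare OnProducts on_products_set polys)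

/-- for all elliptic curves `y² = x³ + Ax + B` over `ℚ` whose invariant has height `H` with `|H - x₀| ≤ W` and all primes
`p` with `P ≤ p ≤ exp (c₀ √(log H))` the order of the image of the Galois group is divisible by `p` -/
def Near (P : ℕ) (c₀ : ℝ) (W x₀ : ℝ) : Prop :=
  ∀ A B : ℚ, 4 * A ^ 3 + 27 * B ^ 2 ≠ 0 → |(ht (invariant A B) : ℝ) - x₀| ≤ W →
    ∀ p : ℕ, p.Prime → P ≤ p → (p : ℝ) ≤ Real.exp (c₀ * Real.sqrt (Real.log (ht (invariant A B) : ℝ))) → OrderDivisible A B p

lemma near_of {P : ℕ} {c₀ : ℝ} {W x₀ : ℝ}
    (h : ∀ t ∈ Exc P c₀, ¬ |(ht t : ℝ) - x₀| ≤ W) : Near P c₀ W x₀ := by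
  intro A B hAB hw p hp hPp hpc
  by_contra hcon
  exact h (invariant A B) ⟨A, B, hAB, rfl, p, hp, hPp, hpc, hcon⟩ hw

/-- **Theorem.** Let `ε > 0` and `θ ≥ 0`. The property `Near`, with windows of length `X ^ θ`, holds for almost all values
of functions of two variables with few coincidences, on arbitrary finite sets of at least `X ^ δ` elements, `ε + θ < δ
≤ 1` (`OnProducts`). Coincidences are rare for `f(a, b) + g(a) + h(b)`, where `f` is any integer polynomial with a
monomial which contains both variables, and `g` and `h` are arbitrary real functions, on arbitrary finite sets of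
integers. -/
theorem result :
    (∀ ε : ℝ, 0 < ε → ∃ (P : ℕ) (c₀ : ℝ), 0 < c₀ ∧ ∀  (θ : ℝ), 0 ≤ θ →
      OnProducts (ε + θ) θ (Near P c₀)) ∧
    ∀ (d : ℕ) (f : MvPolynomial (Fin 2) ℤ), f.totalDegree ≤ d → (∃ m ∈ f.support, m 0 ≠ 0 ∧ m 1 ≠ 0) →
      ∀ (g h : ℤ → ℝ) (A B : Finset ℤ),
        Rare d A B (fun a b => ((MvPolynomial.eval ![a, b] f : ℤ) : ℝ) + g a + h b) := by
  refine ⟨?_, polys⟩
  intro ε hε
  obtain ⟨P, c₀, hc₀, hcount⟩ := count ε hε
  refine ⟨P, c₀, hc₀, ?_⟩
  intro  θ  hθ
  refine (on_products_set (Exc P c₀) (fun j => (ht j : ℝ)) (s := ε) (κ := θ) hε.le hθ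
    hcount).mono fun W x₀ _ hg => ?_
  exact near_of (fun t ht hw => hg t hw ht)

end Pool.Agent.Results.MP_cda23d_nt.MixedPolynomials
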