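import Pool.Agent.U405.RS.F2
import Pool.Agent.Results.MP_cda23d_nt.InvariantWindows

/-!
# Galois images of order divisible by `p` for all elliptic curves with invariant of height near a value of `f` at thin sets of arguments

For every `ε > 0` there are `P` and `c₀ > 0` with the following property. Let `f` be a positive multiplicative
function of at most polynomial growth which for each `a ≥ 1` is injective at the powers `p ^ a` of the large primes
and at most `M p ^ a` there; for example Euler's function or the sum of the divisors. Let `G` have steps bounded below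
by a positive constant and growth at most `v ^ d`, for example `α v ^ d` with `α > 0` and `d ≥ 1`. Let `θ ≥ 0` and `e
= d ε + θ`. for ALL elliptic curves over `ℚ` whose invariant has a height `H` which differs from `G (f v)` by at most
`(f v) ^ θ`, and ALL primes `p` with `P ≤ p ≤ exp (c₀ √(log H))`, the order of the image of the Galois group in
`Aut(E[p])` is divisible by `p`, for almost all `v` (with a saving of any power of the logarithm) in each of these
sets:

* the values of any integer polynomial without repeated roots, of degree `< 1 / e`;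
* the shifted primes `p + a`, `a` any integer, if `e < 1`;
* the intervals `(x, x + y]`, `x^τ ≤ y ≤ x`, for every `τ > e`, `τ ≤ 1`.

As `ε` may be small, polynomials of any degree and any `θ < 1 / degree` are possible. Proof. The tool
`Pool.Agent.U405.RS` (weighted Rankin method) shows that the values of `f` at almost all elements of these sets avoid
every set with a power saving. The starting theorem used in `InvariantWindows` bounds the number of the exceptional
invariants of height `≤ X` by `X ^ ε`.
-/

set_option autoImplicit false

namespace Pool.Agent.Results.MP_cda23d_nt.SparseArguments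

open InvariantWindows (invariant OrderDivisible ht Exc count)
open Pool.Agent.N733.TG (Expanding expanding_pow)
open Pool.Agent.U405.RS (PM Sparse sparse_set' examples)

/-- for all elliptic curves `y² = x³ + Ax + B` over `ℚ` whose invariant has height `H` with `|H - G v| ≤ v ^ θ` and all primes
`p` with `P ≤ p ≤ exp (c₀ √(log H))` the order of the image of the Galois group is divisible by `p` -/
def Near (P : ℕ) (c₀ : ℝ) (G : ℕ → ℝ) (θ : ℝ) (v : ℕ) : Prop :=
  ∀ A B : ℚ, 4 * A ^ 3 + 27 * B ^ 2 ≠ 0 → |(ht (invariant A B) : ℝ) - G v| ≤ (v : ℝ) ^ θ →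
    ∀ p : ℕ, p.Prime → P ≤ p → (p : ℝ) ≤ Real.exp (c₀ * Real.sqrt (Real.log (ht (invariant A B) : ℝ))) → OrderDivisible A B p

lemma near_of {P : ℕ} {c₀ θ : ℝ} {G : ℕ → ℝ} {v : ℕ}
    (h : ∀ t ∈ Exc P c₀, ¬ |(ht t : ℝ) - G v| ≤ (v : ℝ) ^ θ) : Near P c₀ G θ v := by
  intro A B hAB hw p hp hPp hpc
  by_contra hcon
  exact h (invariant A B) ⟨A, B, hAB, rfl, p, hp, hPp, hpc, hcon⟩ hw

/-- **Galois images of order divisible by `p` for all elliptic curves with invariant of height near the values of `f` at
thin sets of arguments.** Let `f` be in the class `PM`, let `G` have steps `≥ const > 0` and growth at most `v ^ d`,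
`ε > 0`, `θ ≥ 0`. For every `U` the property `Near` holds in the sense `Sparse e f`, `e = d ε + θ`: with a saving of
`(log x)^U` it holds at `f v` for almost all `v` among the positive values of every integer polynomial without
repeated roots of degree `< 1 / e`; among the shifted primes `p + a` for every `a`, if `e < 1`; and in all intervals
`(x, x + y]`, `x^τ ≤ y ≤ x`, `e < τ ≤ 1`. Euler's function, the sum of the divisors and the identity are in the class,
and `α v^d` with `α > 0`, `d ≥ 1` is an example of `G`. -/
theorem result :
    (∀ ε : ℝ, 0 < ε → ∃ (P : ℕ) (c₀ : ℝ), 0 < c₀ ∧ ∀ f : ℕ → ℕ, PM f → ∀ (G : ℕ → ℝ) (d : ℝ), Expanding G d → ∀  (θ : ℝ),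
      0 ≤ θ → ∀ U : ℕ, Sparse (d * ε + θ) f (Near P c₀ G θ) U) ∧
    (PM Nat.totient ∧ PM (fun m => ∑ d ∈ m.divisors, d) ∧ PM (fun m => m)) ∧
    ∀ α d : ℝ, 0 < α → 1 ≤ d → Expanding (fun v => α * (v : ℝ) ^ d) d := by
  refine ⟨?_, examples, fun α d hα hd => expanding_pow hα hd⟩
  intro ε hε
  obtain ⟨P, c₀, hc₀, hcount⟩ := count ε hε
  refine ⟨P, c₀, hc₀, ?_⟩
  intro f hf G d hG  θ  hθ U
  exact sparse_set' (Exc P c₀) (fun j => (ht j : ℝ)) hf hG (s := ε) hε.le hθ rfl
    hcount _ U (fun v hv => near_of hv)

end Pool.Agent.Results.MP_cda23d_nt.SparseArguments
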